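import Pool.Agent.Lib.RdvTour.Expect

/-!
# Existence of an optimal symmetric rendezvous strategy
-/

open MeasureTheory Filter
open scoped ENNReal Topology NNReal BoundedContinuousFunction

namespace Pool.Agent.RdvExist

open Pool.Agent.RdvTour

variable {n : ℕ}

/-- the function `nt` of two words, as a function of the pair -/
noncomputable def F (t : ℕ) (σ₁ σ₂ : Equiv.Perm (Fin n)) (w : (ℕ → Fin n) × (ℕ → Fin n)) : ℝ :=
  nt t (fun d => σ₁ (w.1 d)) (fun d => σ₂ (w.2 d))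

theorem isClopen_set (t : ℕ) (σ₁ σ₂ : Equiv.Perm (Fin n)) :
    IsClopen {w : (ℕ → Fin n) × (ℕ → Fin n) | ∀ d < t, σ₁ (w.1 d) ≠ σ₂ (w.2 d)} := by
  have h : {w : (ℕ → Fin n) × (ℕ → Fin n) | ∀ d < t, σ₁ (w.1 d) ≠ σ₂ (w.2 d)} =
      ⋂ d ∈ Finset.range t, {w | σ₁ (w.1 d) ≠ σ₂ (w.2 d)} := by
    ext w
    simp
  rw [h]
  refine isClopen_biInter_finset fun d _ => ?_
  have hc : Continuous fun w : (ℕ → Fin n) × (ℕ → Fin n) => (w.1 d, w.2 d) := by fun_prop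
  exact (isClopen_discrete {y : Fin n × Fin n | σ₁ y.1 ≠ σ₂ y.2}).preimage hc

theorem continuous_F (t : ℕ) (σ₁ σ₂ : Equiv.Perm (Fin n)) : Continuous (F t σ₁ σ₂) := by
  classical
  have h : F t σ₁ σ₂ = Set.indicator {w : (ℕ → Fin n) × (ℕ → Fin n) | ∀ d < t, σ₁ (w.1 d) ≠ σ₂ (w.2 d)} 1 := by
    funext w
    unfold F nt
    rw [Set.indicator_apply]
    by_cases hw : ∀ d < t, σ₁ (w.1 d) ≠ σ₂ (w.2 d)
    · rw [if_pos hw, if_pos (show w ∈ {w : (ℕ → Fin n) × (ℕ → Fin n) | ∀ d < t, σ₁ (w.1 d) ≠ σ₂ (w.2 d)} from hw)]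
      rfl
    · rw [if_neg hw, if_neg (show w ∉ {w : (ℕ → Fin n) × (ℕ → Fin n) | ∀ d < t, σ₁ (w.1 d) ≠ σ₂ (w.2 d)} from hw)]
  rw [h, ← LocallyConstant.coe_charFn ℝ (isClopen_set t σ₁ σ₂)]
  exact LocallyConstant.continuous _

/-- `F` as a bounded continuous function -/
noncomputable def Fb (t : ℕ) (σ₁ σ₂ : Equiv.Perm (Fin n)) : ((ℕ → Fin n) × (ℕ → Fin n)) →ᵇ ℝ≥0 :=
  BoundedContinuousFunction.mkOfCompact ⟨fun w => Real.toNNReal (F t σ₁ σ₂ w),
    continuous_real_toNNReal.comp (continuous_F t σ₁ σ₂)⟩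

theorem cont_int (t : ℕ) (σ₁ σ₂ : Equiv.Perm (Fin n)) : Continuous fun μ : ProbabilityMeasure (ℕ → Fin n) =>
    ∫⁻ w₁, ∫⁻ w₂, ENNReal.ofReal (nt t (fun d => σ₁ (w₁ d)) (fun d => σ₂ (w₂ d)))
      ∂(μ : Measure (ℕ → Fin n)) ∂(μ : Measure (ℕ → Fin n)) := by
  have h1 : ∀ μ : ProbabilityMeasure (ℕ → Fin n),
      ∫⁻ w₁, ∫⁻ w₂, ENNReal.ofReal (nt t (fun d => σ₁ (w₁ d)) (fun d => σ₂ (w₂ d)))
      ∂(μ : Measure (ℕ → Fin n)) ∂(μ : Measure (ℕ → Fin n)) =
      ∫⁻ w, (Fb t σ₁ σ₂ w : ℝ≥0∞) ∂((μ.prod μ : ProbabilityMeasure _) : Measure ((ℕ → Fin n) × (ℕ → Fin n))) := by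
    intro μ
    rw [ProbabilityMeasure.toMeasure_prod]
    exact (lintegral_prod _ (measurable_ofReal_nt n t σ₁ σ₂).aemeasurable).symm
  simp_rw [h1]
  have h2 : Continuous fun μ : ProbabilityMeasure (ℕ → Fin n) => μ.prod μ :=
    ProbabilityMeasure.continuous_prod.comp (continuous_id.prodMk continuous_id)
  rw [continuous_iff_continuousAt]
  intro μ
  exact (ProbabilityMeasure.tendsto_iff_forall_lintegral_tendsto.1 (h2.tendsto μ)) (Fb t σ₁ σ₂)

theorem lsc (n : ℕ) : LowerSemicontinuous fun μ : ProbabilityMeasure (ℕ → Fin n) =>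
    expTime n (μ : Measure (ℕ → Fin n)) := by
  have h : ∀ μ : ProbabilityMeasure (ℕ → Fin n), expTime n (μ : Measure (ℕ → Fin n)) =
      ∑ σ₁ : Equiv.Perm (Fin n), ∑ σ₂ : Equiv.Perm (Fin n), ∑' t : ℕ,
      ((n.factorial : ℝ≥0∞)⁻¹ * (n.factorial : ℝ≥0∞)⁻¹) * ∫⁻ w₁, ∫⁻ w₂, ENNReal.ofReal
        (nt t (fun d => σ₁ (w₁ d)) (fun d => σ₂ (w₂ d))) ∂(μ : Measure (ℕ → Fin n)) ∂(μ : Measure (ℕ → Fin n)) := by
    intro μ
    rw [expTime_eq_tsum]
    simp_rw [ENNReal.tsum_mul_left]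
  simp_rw [h]
  refine lowerSemicontinuous_sum fun σ₁ _ => lowerSemicontinuous_sum fun σ₂ _ =>
    lowerSemicontinuous_tsum fun t => Continuous.lowerSemicontinuous ?_
  refine (ENNReal.continuous_const_mul ?_).comp (cont_int t σ₁ σ₂)
  have h0 : (n.factorial : ℝ≥0∞) ≠ 0 := by
    exact_mod_cast n.factorial_ne_zero
  exact ENNReal.mul_ne_top (ENNReal.inv_ne_top.2 h0) (ENNReal.inv_ne_top.2 h0)

/-- An optimal strategy exists. -/
theorem exists_optimal (n : ℕ) (hn : 1 ≤ n) :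
    ∃ μ : Measure (ℕ → Fin n), IsProbabilityMeasure μ ∧ expTime n μ = value n := by
  have : Nonempty (Fin n) := ⟨⟨0, hn⟩⟩
  have hne : (Set.univ : Set (ProbabilityMeasure (ℕ → Fin n))).Nonempty := by
    refine ⟨⟨Measure.dirac fun _ => ⟨0, hn⟩, inferInstance⟩, trivial⟩
  obtain ⟨μ, -, hμ⟩ := LowerSemicontinuousOn.exists_isMinOn hne isCompact_univ
    ((lsc n).lowerSemicontinuousOn Set.univ)
  refine ⟨μ, inferInstance, le_antisymm ?_ ?_⟩
  · unfold value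
    refine le_iInf fun ν => le_iInf fun hν => ?_
    exact hμ (Set.mem_univ (⟨ν, hν⟩ : ProbabilityMeasure (ℕ → Fin n)))
  · unfold value
    exact iInf_le_of_le (μ : Measure (ℕ → Fin n)) (iInf_le_of_le inferInstance le_rfl)

/-- The labels of all days are independent and uniform. -/
noncomputable def unif (n : ℕ) [Nonempty (Fin n)] : Measure (ℕ → Fin n) :=
  Measure.infinitePi fun _ => (PMF.uniformOfFintype (Fin n)).toMeasure

theorem unif_one [Nonempty (Fin n)] (a : Fin n) (σ₁ σ₂ : Equiv.Perm (Fin n)) :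
    (PMF.uniformOfFintype (Fin n)).toMeasure {y | σ₁ a ≠ σ₂ y} = 1 - (n : ℝ≥0∞)⁻¹ := by
  have h : {y | σ₁ a ≠ σ₂ y} = ({σ₂.symm (σ₁ a)} : Set (Fin n))ᶜ := by
    ext y
    simp only [Set.mem_ofPred_eq, Set.mem_compl_iff, Set.mem_singleton_iff]
    rw [not_iff_not]
    constructor
    · intro h
      rw [h, Equiv.symm_apply_apply]
    · intro h
      rw [h, Equiv.apply_symm_apply]
  rw [h, prob_compl_eq_one_sub (measurableSet_singleton _), PMF.toMeasure_apply_singleton _ _ (measurableSet_singleton _),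
    PMF.uniformOfFintype_apply, Fintype.card_fin]

theorem unif_nt [Nonempty (Fin n)] (t : ℕ) (σ₁ σ₂ : Equiv.Perm (Fin n)) (w₁ : ℕ → Fin n) :
    ∫⁻ w₂, ENNReal.ofReal (nt t (fun d => σ₁ (w₁ d)) (fun d => σ₂ (w₂ d))) ∂(unif n) =
      (1 - (n : ℝ≥0∞)⁻¹) ^ t := by
  classical
  set S : Set (ℕ → Fin n) := Set.pi (Finset.range t) fun d => {y | σ₁ (w₁ d) ≠ σ₂ y} with hS
  have hm : MeasurableSet S := MeasurableSet.pi (Finset.range t).countable_toSet fun d _ => MeasurableSet.of_discrete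
  have h1 : ∀ w₂, ENNReal.ofReal (nt t (fun d => σ₁ (w₁ d)) (fun d => σ₂ (w₂ d))) = S.indicator 1 w₂ := by
    intro w₂
    unfold nt
    rw [Set.indicator_apply]
    by_cases h : ∀ d < t, σ₁ (w₁ d) ≠ σ₂ (w₂ d)
    · rw [if_pos h, if_pos (show w₂ ∈ S from fun d hd => h d (by simpa using hd)), ENNReal.ofReal_one]
      rfl
    · rw [if_neg h, if_neg (show w₂ ∉ S from fun hc => h fun d hd => hc d (by simpa using hd)), ENNReal.ofReal_zero]
  simp_rw [h1]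
  rw [lintegral_indicator_one hm, hS, unif, Measure.infinitePi_pi _ (fun d _ => MeasurableSet.of_discrete)]
  simp_rw [unif_one]
  rw [Finset.prod_const, Finset.card_range]

theorem unif_expTime [Nonempty (Fin n)] (hn : 1 ≤ n) : expTime n (unif n) = n := by
  have : IsProbabilityMeasure (unif n) := by
    unfold unif
    infer_instance
  rw [expTime_eq_tsum]
  simp_rw [unif_nt]
  simp only [lintegral_const, measure_univ, mul_one]
  rw [ENNReal.tsum_geometric, ENNReal.sub_sub_cancel ENNReal.one_ne_top (by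
    rw [ENNReal.inv_le_one]
    exact_mod_cast hn), inv_inv, Finset.sum_const, Finset.sum_const, Finset.card_univ, Fintype.card_perm,
    Fintype.card_fin, nsmul_eq_mul, nsmul_eq_mul]
  have h0 : (n.factorial : ℝ≥0∞) ≠ 0 := by
    exact_mod_cast n.factorial_ne_zero
  have h1 : (n.factorial : ℝ≥0∞) ≠ ∞ := ENNReal.natCast_ne_top _
  calc (n.factorial : ℝ≥0∞) * (n.factorial * ((n.factorial : ℝ≥0∞)⁻¹ * (n.factorial : ℝ≥0∞)⁻¹ * n)) =
      (n.factorial * (n.factorial : ℝ≥0∞)⁻¹) * (n.factorial * (n.factorial : ℝ≥0∞)⁻¹) * n := by ring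
    _ = n := by rw [ENNReal.mul_inv_cancel h0 h1, one_mul, one_mul]

theorem value_le (hn : 1 ≤ n) : value n ≤ n := by
  have : Nonempty (Fin n) := ⟨⟨0, hn⟩⟩
  have hp : IsProbabilityMeasure (unif n) := by
    unfold unif
    infer_instance
  rw [← unif_expTime hn]
  unfold value
  exact iInf_le_of_le (unif n) (iInf_le_of_le hp le_rfl)

end Pool.Agent.RdvExist
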